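import Pool.Agent.W261.QJ.Stm

/-!
QJ-KCONN: the filled Julia set is connected if the Julia set is.
-/

set_option autoImplicit false
open Filter Topology Set Metric

namespace Pool.Agent.W978.QJ

open Pool.Agent.W261.QJ

/-- a piece of a compact set contains points of its frontier -/
theorem piece {K t t' : Set ℂ} (hK : IsCompact K) (ht : IsClosed t) (ht' : IsClosed t')
    (hsub : K ⊆ t ∪ t') (hne : (K ∩ t).Nonempty) (hdis : ¬ (K ∩ (t ∩ t')).Nonempty) :
    (frontier K ∩ t).Nonempty := by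
  have hc : IsCompact (K ∩ t) := hK.inter_right ht
  obtain ⟨z, hz⟩ := nonempty_frontier_iff.mpr ⟨hne, hc.ne_univ⟩
  have hz1 : z ∈ K ∩ t := by
    have h1 := frontier_subset_closure hz
    rwa [hc.isClosed.closure_eq] at h1
  refine ⟨z, ?_, hz1.2⟩
  rw [hK.isClosed.frontier_eq]
  refine ⟨hz1.1, fun hint => ?_⟩
  have hzt' : z ∉ t' := fun h => hdis ⟨z, hz1.1, hz1.2, h⟩
  have hopen : IsOpen (interior K ∩ t'ᶜ) := isOpen_interior.inter ht'.isOpen_compl
  have hsub2 : interior K ∩ t'ᶜ ⊆ K ∩ t := by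
    rintro w ⟨hw1, hw2⟩
    have hw3 := interior_subset hw1
    rcases hsub hw3 with h | h
    · exact ⟨hw3, h⟩
    · exact absurd h hw2
  have h2 : z ∈ interior (K ∩ t) := interior_maximal hsub2 hopen ⟨hint, hzt'⟩
  exact hz.2 h2

theorem kconn : S_kconn := by
  intro f hb hJ
  refine ⟨hb.neJ.mono hb.subJ, ?_⟩
  rw [isPreconnected_closed_iff]
  intro t t' ht ht' hsub hne hne'
  by_contra hcon
  have h1 : (FJ f ∩ t).Nonempty := piece hb.compK ht ht' hsub hne hcon
  have h2 : (FJ f ∩ t').Nonempty := by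
    refine piece hb.compK ht' ht (by rw [union_comm]; exact hsub) hne' ?_
    rw [inter_comm t' t]
    exact hcon
  obtain ⟨z, hz1, hz2⟩ := isPreconnected_closed_iff.mp hJ.2 t t' ht ht' (hb.subJ.trans hsub) h1 h2
  exact hcon ⟨z, hb.subJ hz1, hz2⟩

end Pool.Agent.W978.QJ
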