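import Pool.Agent.W261.QJ.Stm

/-!
QJ-LSLOC: linear separation at a repelling periodic point.
-/

set_option autoImplicit false
open Filter Topology Set Metric

namespace Pool.Agent.W978.QJ

open Pool.Agent.W261.QJ

theorem it_zero (f : Polynomial ℂ) (z : ℂ) : it f 0 z = z := rfl

theorem it_succ (f : Polynomial ℂ) (n : ℕ) (z : ℂ) : it f (n + 1) z = f.eval (it f n z) := by
  unfold it
  rw [Function.iterate_succ_apply']

theorem it_poly (f : Polynomial ℂ) (n : ℕ) :
    ∃ G : Polynomial ℂ, ∀ z, G.eval z = it f n z := by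
  induction n with
  | zero => exact ⟨Polynomial.X, fun z => by rw [Polynomial.eval_X, it_zero]⟩
  | succ n ih =>
    obtain ⟨G, hG⟩ := ih
    exact ⟨f.comp G, fun z => by rw [Polynomial.eval_comp, hG, it_succ]⟩

theorem it_cont (f : Polynomial ℂ) (n : ℕ) : Continuous (it f n) := by
  obtain ⟨G, hG⟩ := it_poly f n
  have : it f n = fun z => G.eval z := by
    funext z
    rw [hG]
  rw [this]
  exact G.continuous

theorem it_J {f : Polynomial ℂ} (hb : Base f) (n : ℕ) {z : ℂ} (hz : z ∈ FJ f) :
    it f n z ∈ FJ f := by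
  induction n with
  | zero => exact hz
  | succ n ih =>
    rw [it_succ]
    exact (hb.invJ _).mpr ih

/-- expansion along the orbit of `x` -/
theorem it_exp {f : Polynomial ℂ} {ε : ℝ} (hb : Base f) (hl : Loc f ε) {x : ℂ} (hx : x ∈ FJ f)
    {n : ℕ} {a : ℂ} (ha : ∀ j ≤ n, dist (it f j a) (it f j x) < ε) :
    ∀ j ≤ n, (3 / 2 : ℝ) ^ j * dist a x ≤ dist (it f j a) (it f j x) := by
  intro j
  induction j with
  | zero =>
    intro _
    rw [pow_zero, one_mul, it_zero, it_zero]
  | succ j ih =>
    intro hj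
    have h1 := ih (by omega)
    have h2 := hl.exp (it f j x) (it f j a) (by
      rw [infDist_zero_of_mem (it_J hb j hx)]
      have := hl.pos
      linarith) (by
      rw [dist_comm]
      have := ha j (by omega)
      have := hl.pos
      linarith)
    rw [← it_succ, ← it_succ, dist_comm (it f j x), dist_comm (it f (j + 1) x)] at h2
    rw [pow_succ]
    nlinarith

/-- the weight inequality -/
theorem weight {c s S : ℝ} (hs : 0 ≤ s) (hc : 0 ≤ c) (hcs : c * s ≤ 1 / 2)
    (hS : 3 / 2 * s ≤ S) :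
    (1 + c * s) * Real.exp (6 * c * s) ≤ (1 - c * s) * Real.exp (6 * c * S) := by
  have ht : 0 ≤ c * s := mul_nonneg hc hs
  have h1 : 1 + c * s ≤ Real.exp (c * s) := by
    have := Real.add_one_le_exp (c * s)
    linarith
  have h2 : 1 ≤ (1 - c * s) * Real.exp (2 * (c * s)) := by
    have h3 := Real.add_one_le_exp (2 * (c * s))
    nlinarith
  have h3 : Real.exp (c * s) * Real.exp (2 * (c * s)) * Real.exp (6 * c * s) ≤
      Real.exp (6 * c * S) := by
    rw [← Real.exp_add, ← Real.exp_add]
    apply Real.exp_le_exp.mpr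
    nlinarith
  have h4 : 0 ≤ 1 - c * s := by linarith
  have e1 := Real.exp_pos (c * s)
  have e2 := Real.exp_pos (2 * (c * s))
  have e3 := Real.exp_pos (6 * c * s)
  calc (1 + c * s) * Real.exp (6 * c * s)
      ≤ Real.exp (c * s) * Real.exp (6 * c * s) := mul_le_mul_of_nonneg_right h1 e3.le
    _ = 1 * (Real.exp (c * s) * Real.exp (6 * c * s)) := by ring
    _ ≤ ((1 - c * s) * Real.exp (2 * (c * s))) * (Real.exp (c * s) * Real.exp (6 * c * s)) :=
        mul_le_mul_of_nonneg_right h2 (mul_pos e1 e3).le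
    _ = (1 - c * s) * (Real.exp (c * s) * Real.exp (2 * (c * s)) * Real.exp (6 * c * s)) := by
        ring
    _ ≤ (1 - c * s) * Real.exp (6 * c * S) := mul_le_mul_of_nonneg_left h3 h4

/-- one step backwards -/
theorem back_step {c s S Λ K D D' : ℝ} (hs : 0 ≤ s) (hc : 0 ≤ c) (hcs : c * s ≤ 1 / 2)
    (hΛ : 0 < Λ) (hK : 0 ≤ K) (hS : 3 / 2 * s ≤ S) (hS2 : Λ * s * (1 - c * s) ≤ S)
    (hD : D' ≤ Λ * D * (1 + c * s)) (hSD : S * Real.exp (6 * c * S) ≤ K * D') :
    s * Real.exp (6 * c * s) ≤ K * D := by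
  have ht : 0 ≤ c * s := mul_nonneg hc hs
  have h1 := weight hs hc hcs hS
  have e1 := Real.exp_pos (6 * c * s)
  have e2 := Real.exp_pos (6 * c * S)
  have h2 : K * D' ≤ K * (Λ * D * (1 + c * s)) := mul_le_mul_of_nonneg_left hD hK
  have h3 : Λ * s * (1 - c * s) * Real.exp (6 * c * S) ≤ K * (Λ * D * (1 + c * s)) :=
    (mul_le_mul_of_nonneg_right hS2 e2.le).trans (hSD.trans h2)
  have h4 : Λ * s * ((1 + c * s) * Real.exp (6 * c * s)) ≤
      Λ * s * ((1 - c * s) * Real.exp (6 * c * S)) :=
    mul_le_mul_of_nonneg_left h1 (mul_nonneg hΛ.le hs)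
  have h5 : (Λ * (1 + c * s)) * (s * Real.exp (6 * c * s)) ≤ (Λ * (1 + c * s)) * (K * D) := by
    calc (Λ * (1 + c * s)) * (s * Real.exp (6 * c * s))
        = Λ * s * ((1 + c * s) * Real.exp (6 * c * s)) := by ring
      _ ≤ Λ * s * ((1 - c * s) * Real.exp (6 * c * S)) := h4
      _ = Λ * s * (1 - c * s) * Real.exp (6 * c * S) := by ring
      _ ≤ K * (Λ * D * (1 + c * s)) := h3
      _ = (Λ * (1 + c * s)) * (K * D) := by ring
  exact le_of_mul_le_mul_left h5 (by positivity)

/-- the mean value inequality for `G z - lam z` -/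
theorem mvt (G : Polynomial ℂ) {x a b lam : ℂ} {r c : ℝ} (hc : 0 ≤ c)
    (h : ∀ z ∈ ball x r, ‖G.derivative.eval z - lam‖ ≤ c * ‖z - x‖) (ha : a ∈ ball x r)
    (hb : b ∈ ball x r) :
    ‖(G.eval a - G.eval b) - lam * (a - b)‖ ≤ c * (dist a x + dist b x) * dist a b := by
  set ρ := max (dist a x) (dist b x) with hρ
  have hρr : ρ < r := max_lt ha hb
  have hρs : ρ ≤ dist a x + dist b x :=
    max_le (le_add_of_nonneg_right dist_nonneg) (le_add_of_nonneg_left dist_nonneg)
  have h1 : ∀ z ∈ closedBall x ρ, HasDerivWithinAt (fun z => G.eval z - lam * z)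
      (G.derivative.eval z - lam) (closedBall x ρ) z := by
    intro z _
    have h2 := (G.hasDerivAt z).sub ((hasDerivAt_id z).const_mul lam)
    rw [mul_one] at h2
    exact h2.hasDerivWithinAt
  have h2 : ∀ z ∈ closedBall x ρ, ‖G.derivative.eval z - lam‖ ≤ c * ρ := by
    intro z hz
    refine (h z (lt_of_le_of_lt hz hρr)).trans ?_
    rw [← dist_eq_norm]
    exact mul_le_mul_of_nonneg_left hz hc
  have hbm : b ∈ closedBall x ρ := mem_closedBall.mpr (le_max_right (dist a x) (dist b x))
  have ham : a ∈ closedBall x ρ := mem_closedBall.mpr (le_max_left (dist a x) (dist b x))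
  have h3 := (convex_closedBall x ρ).norm_image_sub_le_of_norm_hasDerivWithin_le h1 h2 hbm ham
  have e : (G.eval a - G.eval b) - lam * (a - b) = (G.eval a - lam * a) - (G.eval b - lam * b) := by
    ring
  rw [e]
  refine h3.trans ?_
  rw [← dist_eq_norm]
  exact mul_le_mul_of_nonneg_right (mul_le_mul_of_nonneg_left hρs hc) dist_nonneg

theorem lsloc : S_lsloc := by
  intro f ε n x g hb hl hn hx hfx hg E E' r₀ hr₀ hE hE' hEε hgE hEg hEE' hun hxE hxE'
  obtain ⟨G, hG⟩ := it_poly f n
  have hGx : G.eval x = x := by rw [hG, hfx]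
  set lam : ℂ := G.derivative.eval x with hlam
  -- the derivative near `x`
  obtain ⟨c0, hc0, hc0'⟩ :=
    (G.derivative.differentiable.differentiableAt (x := x)).isBigO_sub.exists_pos
  have hev1 := hc0'.bound
  have hev2 : ∀ᶠ a in 𝓝 x, ∀ j ∈ Finset.range (n + 1), dist (it f j a) (it f j x) < ε := by
    rw [eventually_all_finset]
    intro j _
    have h1 := (it_cont f j).tendsto x
    exact h1.eventually (ball_mem_nhds _ hl.pos)
  obtain ⟨ra, hra, hra'⟩ := Metric.eventually_nhds_iff_ball.mp (hev1.and hev2)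
  have hder : ∀ z ∈ ball x ra, ‖G.derivative.eval z - lam‖ ≤ c0 * ‖z - x‖ :=
    fun z hz => (hra' z hz).1
  have hnear : ∀ a ∈ ball x ra, ∀ j ≤ n, dist (it f j a) (it f j x) < ε := by
    intro a ha j hj
    exact (hra' a ha).2 j (Finset.mem_range.mpr (by omega))
  have hexp : ∀ a ∈ ball x ra, 3 / 2 * dist a x ≤ dist (it f n a) x := by
    intro a ha
    have h1 := it_exp hb hl hx (hnear a ha) n le_rfl
    rw [hfx] at h1
    have h2 : (3 / 2 : ℝ) ≤ (3 / 2 : ℝ) ^ n := by
      calc (3 / 2 : ℝ) = (3 / 2 : ℝ) ^ 1 := (pow_one _).symm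
        _ ≤ (3 / 2 : ℝ) ^ n := pow_le_pow_right₀ (by norm_num) hn
    exact (mul_le_mul_of_nonneg_right h2 dist_nonneg).trans h1
  -- the multiplier does not vanish
  have hΛ : 0 < ‖lam‖ := by
    rw [norm_pos_iff]
    intro h0
    set δ : ℝ := min (ra / 2) (1 / c0) with hδ
    have hδ0 : 0 < δ := lt_min (by linarith) (by positivity)
    have h1 : x + (δ : ℂ) ∈ ball x ra := by
      rw [mem_ball, dist_eq_norm, add_sub_cancel_left, Complex.norm_real, Real.norm_eq_abs,
        abs_of_pos hδ0]
      exact (min_le_left _ _).trans_lt (by linarith)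
    have h2 := mvt G hc0.le hder h1 (mem_ball_self hra)
    have h3 := hexp _ h1
    have h4 : dist (x + (δ : ℂ)) x = δ := by
      rw [dist_eq_norm, add_sub_cancel_left, Complex.norm_real, Real.norm_eq_abs,
        abs_of_pos hδ0]
    rw [h0, zero_mul, sub_zero, hGx, dist_self, add_zero, h4, ← dist_eq_norm, hG] at h2
    rw [h4] at h3
    have h5 : δ ≤ 1 / c0 := min_le_right _ _
    rw [le_div_iff₀ hc0] at h5
    nlinarith
  set Λ := ‖lam‖ with hΛd
  set c : ℝ := c0 / Λ with hc
  have hc1 : 0 < c := by positivity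
  have hcΛ : c * Λ = c0 := by
    rw [hc]
    field_simp
  -- the estimates
  have hup : ∀ a ∈ ball x ra, ∀ b ∈ ball x ra,
      dist (it f n a) (it f n b) ≤ Λ * dist a b * (1 + c * (dist a x + dist b x)) := by
    intro a ha b hb
    have h1 := mvt G hc0.le hder ha hb
    rw [hG, hG] at h1
    have h2 : ‖it f n a - it f n b‖ ≤ ‖(it f n a - it f n b) - lam * (a - b)‖ +
        ‖lam * (a - b)‖ := by
      have := norm_add_le ((it f n a - it f n b) - lam * (a - b)) (lam * (a - b))
      rwa [sub_add_cancel] at this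
    rw [norm_mul, ← dist_eq_norm a b, ← dist_eq_norm (it f n a)] at h2
    have e : Λ * dist a b * (1 + c * (dist a x + dist b x)) =
        Λ * dist a b + (c * Λ) * (dist a x + dist b x) * dist a b := by ring
    rw [e, hcΛ]
    linarith
  have hlow : ∀ a ∈ ball x ra, Λ * dist a x * (1 - c * dist a x) ≤ dist (it f n a) x := by
    intro a ha
    have h1 := mvt G hc0.le hder ha (mem_ball_self hra)
    rw [hGx, hG, dist_self, add_zero] at h1
    have h2 : ‖lam * (a - x)‖ ≤ ‖it f n a - x‖ + ‖(it f n a - x) - lam * (a - x)‖ := by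
      have := norm_sub_le (it f n a - x) ((it f n a - x) - lam * (a - x))
      rwa [sub_sub_cancel] at this
    rw [norm_mul, ← dist_eq_norm a x, ← dist_eq_norm (it f n a)] at h2
    have e : Λ * dist a x * (1 - c * dist a x) =
        Λ * dist a x - (c * Λ) * dist a x * dist a x := by ring
    rw [e, hcΛ]
    linarith
  -- radii
  set r1 : ℝ := min (min (ra / 2) (r₀ / 2)) (1 / (4 * c)) with hr1
  have hr1pos : 0 < r1 := lt_min (lt_min (by linarith) (by linarith)) (by positivity)
  have hr1a : r1 < ra := ((min_le_left _ _).trans (min_le_left _ _)).trans_lt (by linarith)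
  have hr1b : r1 < r₀ := ((min_le_left _ _).trans (min_le_right _ _)).trans_lt (by linarith)
  have hr1c : c * (2 * r1) ≤ 1 / 2 := by
    have h1 : r1 ≤ 1 / (4 * c) := min_le_right _ _
    rw [le_div_iff₀ (by positivity)] at h1
    linarith
  obtain ⟨r3, hr3, hr3'⟩ : ∃ r3 > 0, ∀ a ∈ ball x r3, it f n a ∈ ball x r1 := by
    have h1 := (it_cont f n).tendsto x
    rw [hfx] at h1
    exact Metric.eventually_nhds_iff_ball.mp (h1.eventually (ball_mem_nhds x hr1pos))
  -- invariance
  have hinvE : ∀ z ∈ E, z ∈ ball x r1 → it f n z ∈ E := by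
    intro z hz hzr
    obtain ⟨e, he, rfl⟩ := hEg ⟨hz, ball_subset_ball hr1b.le hzr⟩
    rw [hg.right e (by rw [hfx]; exact hEε he)]
    exact he
  have hinvE' : ∀ z ∈ E', z ∈ ball x r1 → it f n z ∈ E' := by
    intro z hz hzr
    have h1 : it f n z ∈ FJ f := it_J hb n (by rw [← hun]; exact Or.inr hz)
    rw [← hun] at h1
    rcases h1 with h1 | h1
    · have h2 : g (it f n z) = z := hg.uniq z (hnear z (ball_subset_ball hr1a.le hzr))
      have h3 : z ∈ E := hgE ⟨_, h1, h2⟩
      have h4 : z = x := hEE' ⟨⟨h3, hz⟩, ball_subset_ball hr1b.le hzr⟩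
      rw [h4, hfx]
      exact hxE'
    · exact h1
  -- the compact set
  set A : Set (ℂ × ℂ) := (E ×ˢ E') ∩ {p | dist p.1 x ≤ r1 ∧ dist p.2 x ≤ r1 ∧
    r3 ≤ dist p.1 x + dist p.2 x} with hA
  have hAc : IsCompact A := by
    refine (hE.prod hE').inter_right ?_
    have e1 : IsClosed {p : ℂ × ℂ | dist p.1 x ≤ r1} :=
      isClosed_le (continuous_fst.dist continuous_const) continuous_const
    have e2 : IsClosed {p : ℂ × ℂ | dist p.2 x ≤ r1} :=
      isClosed_le (continuous_snd.dist continuous_const) continuous_const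
    have e3 : IsClosed {p : ℂ × ℂ | r3 ≤ dist p.1 x + dist p.2 x} :=
      isClosed_le continuous_const
        ((continuous_fst.dist continuous_const).add (continuous_snd.dist continuous_const))
    exact e1.inter (e2.inter e3)
  obtain ⟨cA, hcA, hcA'⟩ : ∃ cA : ℝ, 0 < cA ∧ ∀ p ∈ A, cA ≤ dist p.1 p.2 := by
    by_cases hne : A.Nonempty
    · obtain ⟨p, hp, hmin⟩ := hAc.exists_isMinOn hne
        (continuous_fst.dist continuous_snd).continuousOn
      refine ⟨dist p.1 p.2, ?_, fun q hq => hmin hq⟩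
      rw [dist_pos]
      intro heq
      obtain ⟨⟨h1, h2⟩, h3, h4, h5⟩ := hp
      have h6 : p.1 = x := hEE' ⟨⟨h1, by rw [heq]; exact h2⟩, lt_of_le_of_lt h3 hr1b⟩
      rw [← heq, h6, dist_self] at h5
      linarith
    · exact ⟨1, one_pos, fun p hp => absurd ⟨p, hp⟩ hne⟩
  set K : ℝ := 2 * r1 * Real.exp (6 * c * (2 * r1)) / cA with hK
  have hK0 : 0 < K := by positivity
  -- direct case
  have hdir : ∀ z ∈ E, ∀ z' ∈ E', z ∈ ball x r1 → z' ∈ ball x r1 →
      r3 ≤ dist z x + dist z' x →
      (dist z x + dist z' x) * Real.exp (6 * c * (dist z x + dist z' x)) ≤ K * dist z z' := by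
    intro z hz z' hz' hzr hzr' h3
    have h1 : cA ≤ dist z z' := hcA' (z, z') ⟨⟨hz, hz'⟩, (mem_ball.mp hzr).le,
      (mem_ball.mp hzr').le, h3⟩
    have h2 : dist z x + dist z' x ≤ 2 * r1 := by
      have h4 := mem_ball.mp hzr
      have h5 := mem_ball.mp hzr'
      linarith
    have h4 : Real.exp (6 * c * (dist z x + dist z' x)) ≤ Real.exp (6 * c * (2 * r1)) :=
      Real.exp_le_exp.mpr (mul_le_mul_of_nonneg_left h2 (by positivity))
    have h5 : (dist z x + dist z' x) * Real.exp (6 * c * (dist z x + dist z' x)) ≤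
        2 * r1 * Real.exp (6 * c * (2 * r1)) :=
      mul_le_mul h2 h4 (Real.exp_pos _).le (by positivity)
    refine h5.trans ?_
    have h6 : K * cA = 2 * r1 * Real.exp (6 * c * (2 * r1)) := by
      rw [hK]
      field_simp
    rw [← h6]
    exact mul_le_mul_of_nonneg_left h1 hK0.le
  -- induction
  have hind : ∀ m : ℕ, ∀ z ∈ E, ∀ z' ∈ E', z ∈ ball x r1 → z' ∈ ball x r1 →
      r3 ≤ (3 / 2 : ℝ) ^ m * (dist z x + dist z' x) →
      (dist z x + dist z' x) * Real.exp (6 * c * (dist z x + dist z' x)) ≤ K * dist z z' := by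
    intro m
    induction m with
    | zero =>
      intro z hz z' hz' hzr hzr' h3
      rw [pow_zero, one_mul] at h3
      exact hdir z hz z' hz' hzr hzr' h3
    | succ m ih =>
      intro z hz z' hz' hzr hzr' h3
      by_cases hbig : r3 ≤ dist z x + dist z' x
      · exact hdir z hz z' hz' hzr hzr' hbig
      push Not at hbig
      have hz3 : z ∈ ball x r3 := by
        rw [mem_ball]
        have := dist_nonneg (x := z') (y := x)
        linarith
      have hz3' : z' ∈ ball x r3 := by
        rw [mem_ball]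
        have := dist_nonneg (x := z) (y := x)
        linarith
      have hza : z ∈ ball x ra := ball_subset_ball hr1a.le hzr
      have hza' : z' ∈ ball x ra := ball_subset_ball hr1a.le hzr'
      have g1 := hexp z hza
      have g2 := hexp z' hza'
      have g3 := hlow z hza
      have g4 := hlow z' hza'
      have d1 := dist_nonneg (x := z) (y := x)
      have d2 := dist_nonneg (x := z') (y := x)
      have hS : 3 / 2 * (dist z x + dist z' x) ≤
          dist (it f n z) x + dist (it f n z') x := by linarith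
      have h4 := ih (it f n z) (hinvE z hz hzr) (it f n z') (hinvE' z' hz' hzr')
        (hr3' z hz3) (hr3' z' hz3') (by
          refine h3.trans ?_
          rw [pow_succ, mul_assoc]
          exact mul_le_mul_of_nonneg_left hS (by positivity))
      refine back_step (s := dist z x + dist z' x) (by positivity) hc1.le ?_ hΛ hK0.le hS ?_
        (hup z hza z' hza') h4
      · refine le_trans ?_ hr1c
        apply mul_le_mul_of_nonneg_left _ hc1.le
        have h5 := mem_ball.mp hzr
        have h6 := mem_ball.mp hzr'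
        linarith
      · have e : Λ * (dist z x + dist z' x) * (1 - c * (dist z x + dist z' x)) ≤
            Λ * dist z x * (1 - c * dist z x) + Λ * dist z' x * (1 - c * dist z' x) := by
          have e2 : Λ * dist z x * (1 - c * dist z x) + Λ * dist z' x * (1 - c * dist z' x) -
              Λ * (dist z x + dist z' x) * (1 - c * (dist z x + dist z' x)) =
              2 * (Λ * c) * (dist z x * dist z' x) := by ring
          have e3 : 0 ≤ 2 * (Λ * c) * (dist z x * dist z' x) := by positivity
          linarith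
        linarith
  refine ⟨r1, hr1pos, K, hK0, ?_⟩
  intro z hz z' hz' hzr hzr'
  by_cases h0 : dist z x + dist z' x = 0
  · rw [h0]
    positivity
  have hpos : 0 < dist z x + dist z' x := lt_of_le_of_ne (by positivity) (Ne.symm h0)
  obtain ⟨m, hm⟩ := pow_unbounded_of_one_lt (r3 / (dist z x + dist z' x))
    (by norm_num : (1 : ℝ) < 3 / 2)
  have h1 := hind m z hz z' hz' hzr hzr' (by
    rw [div_lt_iff₀ hpos] at hm
    exact hm.le)
  refine le_trans ?_ h1
  have h2 : 1 ≤ Real.exp (6 * c * (dist z x + dist z' x)) := Real.one_le_exp (by positivity)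
  nlinarith

end Pool.Agent.W978.QJ
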